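import Pool.Agent.R709.CP.Main

/-!
MP_486437_lc: strongly CP-generic predicates need not have strongly CP-generic proper elementary
extensions.

The language of arithmetic `LA`, the theory `PA` and the standard model `stdStr` are those of
`Pool.Agent.Helper227.EN.Lang`; spread sets, strongly CP-generic sets and the expansions `(M, X)`
are defined in `Pool.Agent.R709.CP.Defs`.
-/

set_option autoImplicit false

open FirstOrder FirstOrder.Language
open Pool.Agent.Helper227.EN Pool.Agent.R709.CP

universe u v

namespace Pool.Agent.Results.MP_486437_lc.NoGenericExtension

/-- The answer to the question is negative, in a strong sense.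

(1) Every countable model `M` of `PA` has a strongly CP-generic subset `X` such that for every
proper elementary extension `(N, Y)` of `(M, X)` the set `Y` is not strongly CP-generic in `N`.

(2) The standard model `ℕ` is a model of `PA`, and for *every* strongly CP-generic `X ⊆ ℕ` and every
proper elementary extension `(N, Y)` of `(ℕ, X)` the set `Y` is not strongly CP-generic in `N`. -/
theorem result :
    (∀ (M : Type u) [LA.Structure M] [Countable M], M ⊨ PA →
      ∃ X : Set M, StronglyCPGeneric M X ∧
        ∀ (N : Type v) [LA.Structure N] (Y : Set N) (f : ElemExt M X N Y),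
          ¬ Function.Surjective f → ¬ StronglyCPGeneric N Y) ∧
    @Theory.Model LA ℕ stdStr PA ∧
    ∀ X : Set ℕ, @StronglyCPGeneric ℕ stdStr X →
      ∀ (N : Type v) [LA.Structure N] (Y : Set N) (f : @ElemExt ℕ stdStr X N _ Y),
        ¬ Function.Surjective f → ¬ StronglyCPGeneric N Y :=
  ⟨fun _ _ _ h => main h, std_pa, main_std⟩

end Pool.Agent.Results.MP_486437_lc.NoGenericExtension
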